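import Pool.Agent.Q327.SN.Final

/-!
# Supernilpotent semigroups and monoids are left and right nilpotent

Thue-Morse words provide matrices in `M(1, …, 1)` which give common multiples (Ore conditions) and
cancellation laws for products of sufficiently many elements. In a monoid they give an embedding
into a nilpotent group. In a semigroup the local groups of fractions are nilpotent, and a descending
chain of congruences, whose length depends on `d` only, bounds both nilpotency series.
-/

set_option autoImplicit false

namespace Pool.Agent.Results.MP_d3d931_al.SupernilpotentNilpotent

open Pool.Agent.Q327.SN

universe u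

/-- The full answer to the question: for every `d` there is an `n` such that every
`d`-supernilpotent semigroup is left `n`-nilpotent and right `n`-nilpotent; for monoids one can take
`n = d`. -/
theorem result :
    (∀ d : ℕ, ∃ n : ℕ, ∀ (S : Type u) [Semigroup S], Supernilpotent S d →
      LeftNilpotent S n ∧ RightNilpotent S n) ∧
    (∀ (d : ℕ) (S : Type u) [Monoid S], Supernilpotent S d →
      LeftNilpotent S d ∧ RightNilpotent S d) :=
  ⟨fun d => ⟨Dat.bound d, fun _ _ h => semigroup_main h⟩, fun _ _ _ h => monoid_main h⟩

end Pool.Agent.Results.MP_d3d931_al.SupernilpotentNilpotent
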